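import Mathlib
import Pool.Agent.K9h23.Sc.Cls

/-!
MP_ca0fc2_an: the corona theorem on bounded strictly convex domains of `ℂ²` for data with at most one
bad function near each boundary point.

The first part is a criterion in which only the behaviour of the functions near the single boundary
points `p` matters: near `p` one function `f_k` (which may depend on `p`), on which nothing is
assumed, and some functions which near `p` are approximated by bounded holomorphic functions of the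
one variable `α(z)`, where `α` is a complex linear form whose real part has its maximum over the
closure of `D` at `p`, have no common approximate zeros. The second part: an arbitrary bounded holomorphic function
`G` together with functions in the closed algebra generated by the functions continuous on the closure
of `D` and holomorphic on `D` and by all bounded holomorphic functions of one linear coordinate
`α(z)` (all linear forms `α` together).

* `Pool.Agent.K9h23.Sc.Gle`: Gleason's problem on `D` with bounds (after Leibenson);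
* `Pool.Agent.K9h23.Sc.Alg`: characters of `H^∞(D)`, the fibres over the boundary points;
* `Pool.Agent.K9h23.Sc.Crit`: the criterion, from the corona theorem for functions of one linear
  coordinate and one arbitrary function (`Pool.Agent.Y263.SC`);
* `Pool.Agent.K9h23.Sc.Cls`: uniqueness of the supporting forms, the closed algebra.
-/

set_option autoImplicit false

open Set Filter Topology

namespace Pool.Agent.Results.MP_ca0fc2_an.ConvexOneBad

/-- `D` is a bounded convex domain `{ρ < 0}`, where `ρ` is of class `C²` near the closure of `D` and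
has positive definite real Hessian at all points of the closure of `D`. -/
def IsStrictlyConvex (D : Set (ℂ × ℂ)) : Prop :=
  Convex ℝ D ∧ Bornology.IsBounded D ∧ ∃ (O : Set (ℂ × ℂ)) (ρ : ℂ × ℂ → ℝ), IsOpen O ∧
    closure D ⊆ O ∧ ContDiffOn ℝ 2 ρ O ∧ D = {p | p ∈ O ∧ ρ p < 0} ∧
    ∀ p ∈ closure D, ∀ v : ℂ × ℂ, v ≠ 0 → 0 < fderiv ℝ (fderiv ℝ ρ) p v v

/-- **Corona theorem on strictly convex domains for data with at most one bad function near each
boundary point.** -/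
theorem result (D : Set (ℂ × ℂ)) (hD : IsStrictlyConvex D) (N : ℕ) :
    (∀ f : Fin N → ℂ × ℂ → ℂ, (∀ j, DifferentiableOn ℂ (f j) D) →
      (∀ j, ∃ M : ℝ, ∀ z ∈ D, ‖f j z‖ ≤ M) → (∀ z ∈ D, ∃ j, f j z ≠ 0) →
      (∀ p ∈ frontier D, ∃ (k : Fin N) (S : Finset (Fin N)) (c : ℝ) (α : ℂ × ℂ →L[ℂ] ℂ),
        0 < c ∧ (∀ᶠ z in 𝓝[D] p, c ≤ ‖f k z‖ + ∑ j ∈ S, ‖f j z‖) ∧
        (∀ z ∈ D, (α z).re < (α p).re) ∧
        ∀ ε : ℝ, 0 < ε → ∀ j ∈ S, ∃ u : ℂ → ℂ, DifferentiableOn ℂ u (α '' D) ∧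
          (∃ M : ℝ, ∀ w ∈ α '' D, ‖u w‖ ≤ M) ∧ ∀ᶠ z in 𝓝[D] p, ‖f j z - u (α z)‖ ≤ ε) →
      ∃ g : Fin N → ℂ × ℂ → ℂ, (∀ j, DifferentiableOn ℂ (g j) D) ∧
        (∃ C : ℝ, ∀ j, ∀ z ∈ D, ‖g j z‖ ≤ C) ∧ ∀ z ∈ D, ∑ j, f j z * g j z = 1) ∧
    (∀ (f : Fin N → ℂ × ℂ → ℂ) (G : ℂ × ℂ → ℂ) (δ : ℝ),
      (∀ j, DifferentiableOn ℂ (f j) D) →
      (∀ j, ∀ ε : ℝ, 0 < ε → ∃ u ∈ Algebra.adjoin ℂ
        ({f | ContinuousOn f (closure D) ∧ DifferentiableOn ℂ f D} ∪
          {f | ∃ (α : ℂ × ℂ →L[ℂ] ℂ) (h : ℂ → ℂ), DifferentiableOn ℂ h (α '' D) ∧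
            (∃ M : ℝ, ∀ w ∈ α '' D, ‖h w‖ ≤ M) ∧ f = fun z => h (α z)}),
        ∀ z ∈ D, ‖f j z - u z‖ ≤ ε) →
      DifferentiableOn ℂ G D → (∃ M : ℝ, ∀ z ∈ D, ‖G z‖ ≤ M) →
      0 < δ → (∀ z ∈ D, δ ≤ ∑ j, ‖f j z‖ + ‖G z‖) →
      ∃ (g : Fin N → ℂ × ℂ → ℂ) (g₀ : ℂ × ℂ → ℂ),
        (∀ j, DifferentiableOn ℂ (g j) D) ∧ DifferentiableOn ℂ g₀ D ∧
        (∃ C : ℝ, (∀ j, ∀ z ∈ D, ‖g j z‖ ≤ C) ∧ ∀ z ∈ D, ‖g₀ z‖ ≤ C) ∧
        ∀ z ∈ D, ∑ j, f j z * g j z + G z * g₀ z = 1) := by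
  obtain ⟨hc, hb, O, ρ, hO, hcl, hC2, heq, hH⟩ := hD
  have hs : Pool.Agent.Y263.SC.StrC D O ρ := ⟨hO, hcl, hC2, heq, hb, hc, hH⟩
  refine ⟨fun f hf hb h0 hloc => Pool.Agent.K9h23.Sc.crit hs f hf hb h0 hloc,
    fun f G δ hfd hf hG hGb hδ hlow =>
      Pool.Agent.K9h23.Sc.alg hs f G hfd hf hG hGb hδ hlow⟩

end Pool.Agent.Results.MP_ca0fc2_an.ConvexOneBad
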